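import Pool.Agent.helper83.OD.Spec

/-!
# Project od, module JP2: the terms of the second type
-/

set_option autoImplicit false

open Finset PowerSeries

noncomputable section

namespace Pool.Agent.OD

open Pool.Agent.EP

theorem JP2_ac (N : ℕ) (h : ac (N : ℤ) ≠ 0) :
    ∃ s : ℕ, Odd (Fintype.card (Nat.Partition s)) ∧ 24 * s = N + 1 := by
  unfold ac at h
  split_ifs at h with hc
  · refine ⟨(((N : ℤ) + 1) / 24).toNat, ?_, by omega⟩
    unfold pp at h
    exact (ZMod.natCast_ne_zero_iff_odd).1 h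
  · exact absurd rfl h

theorem JP2 : JP2_stmt := by
  intro j M hM hj hMj h
  unfold JG at h
  obtain ⟨d, hd, hne⟩ := Finset.exists_ne_zero_of_sum_ne_zero h
  simp only [Finset.mem_filter, Nat.mem_divisors, Int.natCast_dvd_natCast] at hd
  obtain ⟨⟨hd1, -⟩, hd2⟩ := hd
  rcases (Nat.dvd_prime hM).1 hd2 with h1 | h7
  · subst h1
    have e1 : ((j : ℤ) * (M : ℤ) / ((1 : ℕ) : ℤ) ^ 2) = ((j * M : ℕ) : ℤ) := by
      push_cast
      simp
    rw [e1] at hne
    exact JP2_ac _ hne
  · exact absurd (h7 ▸ hd1) hMj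

end Pool.Agent.OD
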